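import Pool.Agent.H84.KB.Pat
import Pool.Agent.H84.OS.Fin
import Pool.Agent.H41.RC.WMain

/-!
MP_dd013b_lc (the K best solutions of random problems): the probability of the bad instances and the mean of the running time.
-/

set_option autoImplicit false

namespace Pool.Agent.H84.KB

open Finset

open Pool.Agent.H92.SR hiding nb box card_box

open Pool.Agent.H92.SR.Tr

open Pool.Agent.H84.TS (mix sf_sq)

open Pool.Agent.H84.OS (val lst out val_mix val_le val_lst meanW sup kls reps choose_pow4 clsO clsO_card clsO_mem clsO_sqf kls_card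
  bsz_leO)

variable {n : ℕ}

/-- bad at the level `m` -/
def BadK (G : Finset (Fin n)) (σ : Bool) (K : ℕ) (F : Set (Fin n → ℕ)) (r b m : ℕ) (x : Fin n → ℕ) : Prop :=
  ∃ (k : ℕ) (c : Fin n → ℕ), Best σ K F c x ∧ (∀ i, c i ≤ r) ∧ m ≤ (kls G c x).card ∧
    |val c x - k| * 2 ^ (1 + b * 4 ^ (m + 1)) < 1

open Classical in
theorem one_setK {A : Fin n → Finset ℕ} {w : Fin n → ℕ → ℝ} {θ : ℝ} (hθ : 0 ≤ θ)
    (hw0 : ∀ i, ∀ a ∈ A i, 0 ≤ w i a) (hw1 : ∀ i, ∑ a ∈ A i, w i a = 1)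
    {G : Finset (Fin n)} (hwθ : ∀ i ∈ G, ∀ a ∈ A i, w i a ≤ θ)
    {L r m : ℕ} (hL : ∀ z ∈ Fintype.piFinset A, ∀ i, √(z i : ℝ) ≤ L) (σ : Bool) (K : ℕ)
    (F : Set (Fin n → ℕ)) {b : ℕ} (hb : 8 * (n * r * L + 1) ≤ 2 ^ b) :
    ∑ x ∈ (Fintype.piFinset A).filter (fun x => BadK G σ K F r b m x), ∏ i, w i (x i) ≤
      K * (4 * (n + 1) * (r + 1) * θ) ^ m := by
  obtain ⟨Q, hQ⟩ : ∃ Q : (I : Finset (Fin n)) → ({o // o ∈ I} → Fin (r + 1)) × Fin K → (Fin n → ℕ) → Prop,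
      ∀ I f x, Q I f x ↔ ∃ (k : ℕ) (c : Fin n → ℕ), Best σ K F c x ∧ (∀ i, c i ≤ r) ∧ (∀ i ∈ I, i ∈ G) ∧ (∀ i ∈ I, c i ≠ 0) ∧
      (∀ o : {o // o ∈ I}, c o.1 = (f.1 o : ℕ)) ∧ (rs σ F I c x).ncard = (f.2 : ℕ) ∧ (∀ i ∈ I, x i ≠ 0 ∧ sf (x i) ≠ 1) ∧
      (∀ i ∈ I, ∀ j ∈ I, sf (x i) = sf (x j) → i = j) ∧ |val c x - k| * 2 ^ (1 + b * 4 ^ (m + 1)) < 1 :=
    ⟨_, fun _ _ _ => Iff.rfl⟩
  have hW : ∀ I ∈ (univ : Finset (Fin n)).powersetCard m, ∀ f,
      ∑ x ∈ (Fintype.piFinset A).filter (Q I f), ∏ i, w i (x i) ≤ (m * θ) ^ m := by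
    intro I hI f
    have hI2 := (Finset.mem_powersetCard.1 hI).2
    refine meanW hw0 hw1 I (Q I f) fun x hx => ?_
    rcases ((Fintype.piFinset A).filter fun z => Q I f (mix I z x)).eq_empty_or_nonempty with he | ⟨z0, hz0⟩
    · rw [he, Finset.sum_empty]
      positivity
    obtain ⟨k0, c0, hS0, hc0, hG0, ho0, hf0, hj0, hn0, hd0, hl0⟩ := (hQ _ _ _).1 (mem_filter.1 hz0).2
    have h2 := patK hθ hw0 hw1 hL hx I (fun i hi => hwθ i (hG0 i hi)) σ K (f.2 : ℕ) F c0 hb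
      ((Fintype.piFinset A).filter fun z => Q I f (mix I z x)) (Finset.filter_subset _ _) ho0 (fun z hz => by
        obtain ⟨k, c, hS, hc, -, ho, hf, hj1, hn1, hd1, hl⟩ := (hQ _ _ _).1 (mem_filter.1 hz).2
        have hmi : ∀ i ∈ I, mix I z x i = z i := by
          intro i hi
          unfold mix
          rw [if_pos hi]
        rw [rs_mix] at hj1
        refine ⟨k, c, hS, hc, fun i hi => ?_, hj1, fun i hi => ?_, fun i hi j hj hij => ?_, by rw [hI2]; exact hl⟩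
        · exact (hf ⟨i, hi⟩).trans (hf0 ⟨i, hi⟩).symm
        · have := hn1 i hi
          rwa [hmi i hi] at this
        · have := hd1 i hi j hj
          rw [hmi i hi, hmi j hj] at this
          exact this hij)
    rw [hI2] at h2
    exact h2
  have hWn : ∀ x ∈ Fintype.piFinset A, 0 ≤ ∏ i, w i (x i) := fun x hx =>
    Finset.prod_nonneg fun i _ => hw0 i _ (Fintype.mem_piFinset.1 hx i)
  have c1 := Pool.Agent.H41.RC.union_bound (Fintype.piFinset A)
    (((univ : Finset (Fin n)).powersetCard m).sigma fun I => (univ : Finset (({o // o ∈ I} → Fin (r + 1)) × Fin K)))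
    (fun x => BadK G σ K F r b m x) (fun p => Q p.1 p.2) (fun x => ∏ i, w i (x i)) hWn (by
      intro x hx hbad
      obtain ⟨k, c, hS, hc, hO, hl⟩ := hbad
      obtain ⟨I, hI2, hI6, hI3, hI4, hI5⟩ := reps hO
      refine ⟨⟨I, (fun o => ⟨c o.1, Nat.lt_succ_of_le (hc o.1)⟩, ⟨_, (rs_fin I hS).2⟩)⟩, Finset.mem_sigma.2
        ⟨Finset.mem_powersetCard.2 ⟨Finset.subset_univ _, hI2⟩, mem_univ _⟩, ?_⟩
      rw [hQ]
      exact ⟨k, c, hS, hc, hI6, hI3, fun o => rfl, rfl, hI4, hI5, hl⟩)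
  rw [Finset.sum_sigma] at c1
  calc ∑ x ∈ (Fintype.piFinset A).filter (fun x => BadK G σ K F r b m x), ∏ i, w i (x i) ≤
        ∑ I ∈ (univ : Finset (Fin n)).powersetCard m, ∑ f : ({o // o ∈ I} → Fin (r + 1)) × Fin K,
          ∑ x ∈ (Fintype.piFinset A).filter (Q I f), ∏ i, w i (x i) := c1
    _ ≤ ∑ I ∈ (univ : Finset (Fin n)).powersetCard m, ∑ _f : ({o // o ∈ I} → Fin (r + 1)) × Fin K, ((m : ℝ) * θ) ^ m :=
        Finset.sum_le_sum fun I hI => Finset.sum_le_sum fun f _ => hW I hI f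
    _ = ∑ I ∈ (univ : Finset (Fin n)).powersetCard m, (((r + 1) ^ m * K : ℕ) : ℝ) * ((m : ℝ) * θ) ^ m := by
        refine Finset.sum_congr rfl fun I hI => ?_
        rw [Finset.sum_const, nsmul_eq_mul, Finset.card_univ]
        congr 2
        rw [Fintype.card_prod, Fintype.card_fun, Fintype.card_fin, Fintype.card_fin, Fintype.card_coe,
          (Finset.mem_powersetCard.1 hI).2]
    _ = (n.choose m : ℝ) * ((((r + 1) ^ m * K : ℕ) : ℝ) * ((m : ℝ) * θ) ^ m) := by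
        rw [Finset.sum_const, nsmul_eq_mul, Finset.card_powersetCard, Finset.card_univ, Fintype.card_fin]
    _ = ((n.choose m * m ^ m : ℕ) : ℝ) * (K * (((r : ℝ) + 1) ^ m * θ ^ m)) := by
        push_cast
        rw [mul_pow (m : ℝ) θ]
        ring
    _ ≤ (((4 * (n + 1)) ^ m : ℕ) : ℝ) * (K * (((r : ℝ) + 1) ^ m * θ ^ m)) := by
        refine mul_le_mul_of_nonneg_right ?_ (by positivity)
        exact_mod_cast choose_pow4 n m
    _ = K * (4 * (n + 1) * (r + 1) * θ) ^ m := by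
        push_cast
        rw [mul_pow (4 * ((n : ℝ) + 1) * (r + 1)) θ, mul_pow (4 * ((n : ℝ) + 1)) ((r : ℝ) + 1)]
        generalize (4 * ((n : ℝ) + 1)) ^ m = u, ((r : ℝ) + 1) ^ m = v, θ ^ m = t
        ring

open Classical in
theorem mainK : ∃ (c : Prog) (T : List ℕ → ℤ → ℕ) (q : Polynomial ℕ) (Λ : ℕ), 1 ≤ Λ ∧
    (∀ (L : List ℕ) (k : ℤ), Eval c (Pool.Agent.H8.SS.encS L k)
      (bit (decide ((k : ℝ) ≤ (L.map fun a : ℕ => √(a : ℝ)).sum))) (T L k)) ∧
    ∀ (n r s ρ K : ℕ) (A : Fin n → Finset ℕ) (w : Fin n → ℕ → ℝ) (θ : ℝ), Nat.size r ≤ s →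
      (∀ i, ∀ a ∈ A i, Nat.size a ≤ s ∧ 0 ≤ w i a) → (∀ i, ∑ a ∈ A i, w i a = 1) → 0 ≤ θ →
      (Finset.univ.filter fun i => ∃ a ∈ A i, θ < w i a).card ≤ ρ → ∀ (σ : Bool) (F : Set (Fin n → ℕ)),
      (∀ m : ℕ, ∑ x ∈ (Fintype.piFinset A).filter (fun x => ∃ (c : Fin n → ℕ) (k : ℤ), Best σ K F c x ∧
          (∀ i, c i ≤ r) ∧ q.eval (n + s + Nat.size k.natAbs) * Λ ^ (m + ρ) < T (lst c x) k),
        ∏ i, w i (x i) ≤ K * (4 * (n + 1) * (r + 1) * θ) ^ m) ∧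
      (8 * Λ * (n + 1) * (r + 1) * θ ≤ 1 →
        ∀ (B : ℕ) (g : (Fin n → ℕ) → Fin n → ℕ) (k : (Fin n → ℕ) → ℤ),
        (∀ x ∈ Fintype.piFinset A, Best σ K F (g x) x ∧ (∀ i, g x i ≤ r) ∧ Nat.size (k x).natAbs ≤ B) →
        ∑ x ∈ Fintype.piFinset A, (∏ i, w i (x i)) * (T (lst (g x) x) (k x) : ℝ) ≤
          ((K * q.eval (n + s + B) * Λ ^ ρ : ℕ) : ℝ)) := by
  obtain ⟨c, T, q, Λ0, hΛ0, hE, hT, hT2⟩ := Pool.Agent.H84.OB.timD
  obtain ⟨c', q', h'⟩ := Pool.Agent.H8.SS.ge0 c T hE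
  choose T' hT' hE' using h'
  obtain ⟨qq, hqq⟩ : ∃ qq : Polynomial ℕ, ∀ y, qq.eval y =
      q.eval (3 * (y + 1) ^ 2) * Λ0 ^ 2 + q'.eval (3 * (y + 1) ^ 2) := by
    refine ⟨q.comp (Polynomial.C 3 * (Polynomial.X + 1) ^ 2) * Polynomial.C (Λ0 ^ 2) +
      q'.comp (Polynomial.C 3 * (Polynomial.X + 1) ^ 2), fun y => ?_⟩
    rw [Polynomial.eval_add, Polynomial.eval_mul, Polynomial.eval_comp, Polynomial.eval_comp,
      Polynomial.eval_C, Polynomial.eval_mul, Polynomial.eval_C,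
      Polynomial.eval_pow, Polynomial.eval_add, Polynomial.eval_X, Polynomial.eval_one]
  have hev2 : ∀ y, (qq * Polynomial.C (1 + 3 * Λ0)).eval y = qq.eval y * (1 + 3 * Λ0) := fun y => by
    rw [Polynomial.eval_mul, Polynomial.eval_C]
  refine ⟨c', T', qq * Polynomial.C (1 + 3 * Λ0), Λ0, hΛ0, hE',
    fun n r s ρ K A w θ hrs hAw hw1 hθ hρ σ F => ?_⟩
  obtain ⟨G, hG⟩ : ∃ G, G = univ \ (Finset.univ.filter fun i => ∃ a ∈ A i, θ < w i a) := ⟨_, rfl⟩
  have hGc : (univ \ G).card ≤ ρ := by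
    rw [hG, Finset.sdiff_sdiff_eq_self (Finset.subset_univ _)]
    exact hρ
  have hΛR : (1 : ℝ) ≤ Λ0 := by exact_mod_cast hΛ0
  have hwθ : ∀ i ∈ G, ∀ a ∈ A i, w i a ≤ θ := by
    intro i hi a ha
    rw [hG, mem_sdiff, mem_filter, not_and] at hi
    have h1 := hi.2 (mem_univ i)
    push Not at h1
    exact h1 a ha
  have hr2 : r < 2 ^ s := (Nat.lt_size_self r).trans_le (Nat.pow_le_pow_right (by norm_num) hrs)
  have hx_lt : ∀ x ∈ Fintype.piFinset A, ∀ i, x i < 2 ^ s := fun x hx i =>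
    (Nat.lt_size_self _).trans_le (Nat.pow_le_pow_right (by norm_num) (hAw i _ (Fintype.mem_piFinset.1 hx i)).1)
  obtain ⟨L, hL⟩ : ∃ L, L = 2 ^ s := ⟨_, rfl⟩
  have hLb : ∀ z ∈ Fintype.piFinset A, ∀ i, √(z i : ℝ) ≤ (L : ℕ) := by
    intro z hz i
    rw [Real.sqrt_le_left (Nat.cast_nonneg _)]
    have h2 := hx_lt z hz i
    have h3 : z i ≤ L ^ 2 := by
      rw [← hL] at h2
      calc z i ≤ L := h2.le
        _ ≤ L ^ 2 := by
          rw [sq]
          exact Nat.le_mul_self L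
    exact_mod_cast h3
  obtain ⟨b, hb⟩ : ∃ b, b = n + 2 * s + 3 := ⟨_, rfl⟩
  have hb2 : 8 * (n * r * L + 1) ≤ 2 ^ b := by
    have a1 : n + 1 ≤ 2 ^ n := Nat.lt_two_pow_self
    have a2 : n * r * L + 1 ≤ (n + 1) * (2 ^ s * 2 ^ s) := by
      have a3 : r * L ≤ 2 ^ s * 2 ^ s := by
        rw [hL]
        exact Nat.mul_le_mul_right _ hr2.le
      have a4 : 1 ≤ 2 ^ s * 2 ^ s := Nat.one_le_iff_ne_zero.2 (by positivity)
      calc n * r * L + 1 = n * (r * L) + 1 := by ring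
        _ ≤ n * (2 ^ s * 2 ^ s) + 2 ^ s * 2 ^ s := Nat.add_le_add (Nat.mul_le_mul_left _ a3) a4
        _ = (n + 1) * (2 ^ s * 2 ^ s) := by ring
    calc 8 * (n * r * L + 1) ≤ 8 * (2 ^ n * (2 ^ s * 2 ^ s)) :=
          Nat.mul_le_mul_left _ (a2.trans (Nat.mul_le_mul_right _ a1))
      _ = 2 ^ b := by
          rw [hb, show n + 2 * s + 3 = n + (s + s) + 3 by ring, pow_add, pow_add, pow_add]
          ring
  -- the time for a solution and a threshold
  have hcl : ∀ x ∈ Fintype.piFinset A, ∀ (c : Fin n → ℕ) (k : ℤ) (m : ℕ), (∀ i, c i ≤ r) →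
      ((kls G c x).card ≤ m ∨ 1 ≤ |val c x - (k.natAbs : ℕ)| * 2 ^ (1 + b * 4 ^ (m + 1))) →
      T' (lst c x) k ≤ qq.eval (n + s + Nat.size k.natAbs) * Λ0 ^ (m + ρ) := by
    intro x hx c k m hr hm
    obtain ⟨κ, hκ⟩ : ∃ κ, κ = Nat.size k.natAbs := ⟨_, rfl⟩
    obtain ⟨P, hP⟩ : ∃ P, P = 3 * (n + s + κ + 1) ^ 2 := ⟨_, rfl⟩
    have hcs : ∀ i, c i < 2 ^ s := fun i => (hr i).trans_lt hr2
    have hsz : bsz (lst c x) k.natAbs + (b + κ) ≤ P := by
      have h1 : ((lst c x).map Nat.size).sum + (lst c x).length + Nat.size 0 ≤ n * (3 * s + 1) + s := by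
        have := bsz_leO (k := 0) hcs (fun i => hx_lt x hx i) (by rw [Nat.size_zero]; exact Nat.zero_le _)
        unfold bsz at this
        omega
      have a8 : P = 3 * n * n + 3 * s * s + 3 * κ * κ + 3 + 6 * n * s + 6 * n * κ + 6 * s * κ + 6 * n + 6 * s + 6 * κ := by
        rw [hP]; ring
      have a9 : n * (3 * s + 1) = 3 * n * s + n := by ring
      have a10 : 6 * n * s = 3 * n * s + 3 * n * s := by ring
      unfold bsz
      rw [← hκ]
      omega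
    have hTb : T (lst c x) k.natAbs ≤ q.eval P * Λ0 ^ (m + ρ + 2) := by
      rcases hm with hm | hm
      · have h2 := hT2 (lst c x) k.natAbs (b + κ) (clsO c x) (clsO_mem _ _) (mem_insert_self _ _) (clsO_sqf _ _) (by
          have a4 := val_le hr (hLb x hx)
          have hbb : (2 : ℝ) ^ b ≤ 2 ^ (b + κ) := pow_le_pow_right₀ (by norm_num) (Nat.le_add_right _ _)
          have a5 : (8 : ℝ) * (n * r * (L : ℕ) + 1) ≤ 2 ^ b := by exact_mod_cast hb2
          have a6 : (8 : ℝ) * (k.natAbs : ℕ) ≤ 2 ^ (b + κ) := by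
            have h5 : 8 * k.natAbs ≤ 2 ^ (b + κ) := by
              calc 8 * k.natAbs ≤ 2 ^ 3 * 2 ^ κ := by
                    refine Nat.mul_le_mul (by norm_num) ?_
                    rw [hκ]
                    exact (Nat.lt_size_self _).le
                _ = 2 ^ (3 + κ) := (pow_add _ _ _).symm
                _ ≤ 2 ^ (b + κ) := Nat.pow_le_pow_right (by norm_num) (by omega)
            exact_mod_cast h5
          rw [val_lst]
          have b6 : (0 : ℝ) ≤ n * r * (L : ℕ) := by positivity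
          linarith)
        have h3 := clsO_card hGc c x
        exact h2.trans (Nat.mul_le_mul (poly_mono q hsz) (Nat.pow_le_pow_right hΛ0 (by omega)))
      · have hsep : 1 ≤ |EE (lst c x) k.natAbs| * 2 ^ (1 + b * 4 ^ (m + 1)) := by
          unfold EE
          rw [val_lst]
          exact hm
        exact (hT _ _ b (m + 1) hsep).trans
          (Nat.mul_le_mul (poly_mono q (by omega)) (Nat.pow_le_pow_right hΛ0 (by omega)))
    have hΛm : 1 ≤ Λ0 ^ (m + ρ) := Nat.one_le_pow _ _ hΛ0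
    rw [← hκ, hqq, ← hP]
    calc T' (lst c x) k ≤ T (lst c x) k.natAbs + q'.eval P := by
          refine (hT' _ _).trans (Nat.add_le_add_left (poly_mono q' ?_) _)
          exact (Nat.le_add_right _ _).trans hsz
      _ ≤ q.eval P * Λ0 ^ (m + ρ + 2) + q'.eval P * Λ0 ^ (m + ρ) :=
          Nat.add_le_add hTb (Nat.le_mul_of_pos_right _ hΛm)
      _ = (q.eval P * Λ0 ^ 2 + q'.eval P) * Λ0 ^ (m + ρ) := by
          rw [pow_add Λ0 (m + ρ) 2]
          ring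
  have hnb : ∀ x ∈ Fintype.piFinset A, ∀ (c : Fin n → ℕ) (k : ℤ) (m : ℕ), Best σ K F c x → (∀ i, c i ≤ r) →
      ¬ BadK G σ K F r b m x → T' (lst c x) k ≤ qq.eval (n + s + Nat.size k.natAbs) * Λ0 ^ (m + ρ) := by
    intro x hx c k m hS hr hbad
    refine hcl x hx c k m hr ?_
    by_contra hcon
    rw [not_or, not_le, not_le] at hcon
    exact hbad ⟨k.natAbs, c, hS, hr, hcon.1.le, hcon.2⟩
  have hWn : ∀ x ∈ Fintype.piFinset A, 0 ≤ ∏ i, w i (x i) := fun x hx =>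
    Finset.prod_nonneg fun i _ => (hAw i _ (Fintype.mem_piFinset.1 hx i)).2
  have hW1 : ∑ x ∈ Fintype.piFinset A, ∏ i, w i (x i) = 1 := by
    rw [← Finset.prod_univ_sum, Finset.prod_congr rfl fun i _ => hw1 i]
    simp
  have hone : ∀ m, ∑ x ∈ (Fintype.piFinset A).filter (fun x => BadK G σ K F r b m x), ∏ i, w i (x i) ≤
      K * (4 * (n + 1) * (r + 1) * θ) ^ m := fun m =>
    one_setK (m := m) hθ (fun i a ha => (hAw i a ha).2) hw1 hwθ hLb σ K F hb2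
  refine ⟨fun m => ?_, fun hθΛ B g k hg => ?_⟩
  · refine le_trans ?_ (hone m)
    refine Finset.sum_le_sum_of_subset_of_nonneg ?_ fun x hx _ => hWn x (mem_filter.1 hx).1
    intro x hx
    obtain ⟨hx1, c, k, hS, hr, hlt⟩ := mem_filter.1 hx
    refine mem_filter.2 ⟨hx1, ?_⟩
    by_contra hbad
    have h1 := hnb x hx1 c k m hS hr hbad
    have h2 : qq.eval (n + s + Nat.size k.natAbs) * Λ0 ^ (m + ρ) ≤
        (qq * Polynomial.C (1 + 3 * Λ0)).eval (n + s + Nat.size k.natAbs) * Λ0 ^ (m + ρ) := by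
      rw [hev2]
      exact Nat.mul_le_mul_right _ (Nat.le_mul_of_pos_right _ (by omega))
    omega
  · have hmono : ∀ x ∈ Fintype.piFinset A, qq.eval (n + s + Nat.size (k x).natAbs) ≤ qq.eval (n + s + B) :=
      fun x hx => poly_mono qq (by have := (hg x hx).2.2; omega)
    have hK1 : (1 : ℝ) ≤ K := by
      have hne : (Fintype.piFinset A).Nonempty := by
        rw [Finset.nonempty_iff_ne_empty]
        intro h0
        rw [h0, Finset.sum_empty] at hW1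
        exact zero_ne_one hW1
      obtain ⟨x, hx⟩ := hne
      obtain ⟨-, S, hS, -⟩ := (hg x hx).1
      have : 1 ≤ K := by omega
      exact_mod_cast this
    have key := Pool.Agent.H41.RC.avgW (Fintype.piFinset A) (fun x => ∏ i, w i (x i))
      (fun x => (T' (lst (g x) x) (k x) : ℝ)) (fun m x => BadK G σ K F r b m x)
      (Q := ((qq.eval (n + s + B) * Λ0 ^ ρ : ℕ) : ℝ)) (L := (Λ0 : ℝ)) (Nat.cast_nonneg _) hΛR hWn hW1
      (M := n) (p := fun m => K * (4 * (n + 1) * (r + 1) * θ) ^ m) ?_ ?_ ?_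
    · have hgeo := Pool.Agent.H41.RC.geo (L := (Λ0 : ℝ)) (θ := 4 * (n + 1) * (r + 1) * θ) hΛR (by positivity)
        (by linarith) n
      have hgeo2 : 1 + ∑ m ∈ Finset.range n, (Λ0 : ℝ) ^ (m + 1) * (K * (4 * (n + 1) * (r + 1) * θ) ^ m) +
          (Λ0 : ℝ) ^ n * (K * (4 * (n + 1) * (r + 1) * θ) ^ n) ≤ K * (1 + 3 * Λ0) := by
        have e1 : ∑ m ∈ Finset.range n, (Λ0 : ℝ) ^ (m + 1) * (K * (4 * (n + 1) * (r + 1) * θ) ^ m) =
            K * ∑ m ∈ Finset.range n, (Λ0 : ℝ) ^ (m + 1) * (4 * (n + 1) * (r + 1) * θ) ^ m := by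
          rw [Finset.mul_sum]
          exact Finset.sum_congr rfl fun m _ => by ring
        rw [e1]
        have h0 : (0 : ℝ) ≤ K := Nat.cast_nonneg _
        have h1 := mul_le_mul_of_nonneg_left hgeo h0
        linarith
      refine (key.trans (mul_le_mul_of_nonneg_left hgeo2 (Nat.cast_nonneg _))).trans (le_of_eq ?_)
      rw [hev2]
      push_cast
      ring
    · intro x hx m _ hbad
      obtain ⟨hS, hr, -⟩ := hg x hx
      have h1 : T' (lst (g x) x) (k x) ≤ qq.eval (n + s + B) * Λ0 ^ ρ * Λ0 ^ m := by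
        refine (hnb x hx (g x) (k x) m hS hr hbad).trans ?_
        rw [pow_add, mul_assoc (qq.eval (n + s + B)), mul_comm (Λ0 ^ ρ)]
        exact Nat.mul_le_mul_right _ (hmono x hx)
      exact_mod_cast h1
    · intro x hx
      obtain ⟨hS, hr, -⟩ := hg x hx
      have h1 : T' (lst (g x) x) (k x) ≤ qq.eval (n + s + B) * Λ0 ^ ρ * Λ0 ^ n := by
        refine (hcl x hx (g x) (k x) n hr (Or.inl (kls_card _ _ _))).trans ?_
        rw [pow_add, mul_assoc (qq.eval (n + s + B)), mul_comm (Λ0 ^ ρ)]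
        exact Nat.mul_le_mul_right _ (hmono x hx)
      exact_mod_cast h1
    · intro m _
      exact hone m

end Pool.Agent.H84.KB
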