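import Pool.Agent.H84.OS.Set

/-!
MP_dd013b_lc (the K best solutions of random problems): definitions, the rank outside a set of items, and the bad values of the
weights of a set of items for a fixed pattern of coefficients and a fixed rank.
-/

set_option autoImplicit false

namespace Pool.Agent.H84.KB

open Finset

open Pool.Agent.H92.SR hiding nb

open Pool.Agent.H84.TS (mix sf_sq)

open Pool.Agent.H84.OS (val lst out val_mix val_le loc_sumO sf_cv cls_match sqrt_cv)

variable {n : ℕ}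

/-- the value `a` is better than `b`: smaller for `σ = true`, greater for `σ = false` -/
def Better (σ : Bool) (a b : ℝ) : Prop := if σ = true then a < b else b < a

/-- `c` is one of the `K` best members of the family `F`: the better values of members of `F` are fewer than `K` numbers -/
def Best (σ : Bool) (K : ℕ) (F : Set (Fin n → ℕ)) (c x : Fin n → ℕ) : Prop :=
  c ∈ F ∧ ∃ S : Finset ℝ, S.card < K ∧ ∀ c' ∈ F, Better σ (val c' x) (val c x) → val c' x ∈ S

theorem better_irrefl (σ : Bool) (a : ℝ) : ¬ Better σ a a := by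
  unfold Better
  split_ifs <;> exact lt_irrefl _

theorem better_trans {σ : Bool} {a b c : ℝ} (h1 : Better σ a b) (h2 : Better σ b c) : Better σ a c := by
  unfold Better at *
  split_ifs at * with h
  · exact h1.trans h2
  · exact h2.trans h1

theorem better_tri (σ : Bool) (a b : ℝ) : a = b ∨ Better σ a b ∨ Better σ b a := by
  unfold Better
  rcases lt_trichotomy a b with h | h | h
  · right
    split_ifs
    · exact Or.inl h
    · exact Or.inr h
  · exact Or.inl h
  · right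
    split_ifs
    · exact Or.inr h
    · exact Or.inl h

theorem better_add {σ : Bool} {a b : ℝ} (e : ℝ) : Better σ (e + a) (e + b) ↔ Better σ a b := by
  unfold Better
  split_ifs <;> simp

/-- the better values outside `I` of the members of `F` with the same coefficients on `I` -/
def rs (σ : Bool) (F : Set (Fin n → ℕ)) (I : Finset (Fin n)) (c x : Fin n → ℕ) : Set ℝ :=
  {v | ∃ c' ∈ F, (∀ i ∈ I, c' i = c i) ∧ out I c' x = v ∧ Better σ v (out I c x)}

theorem out_mix (I : Finset (Fin n)) (c z x : Fin n → ℕ) : out I c (mix I z x) = out I c x := by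
  unfold out
  refine Finset.sum_congr rfl fun i hi => ?_
  unfold mix
  rw [if_neg (Finset.mem_sdiff.1 hi).2]

theorem rs_mix (σ : Bool) (F : Set (Fin n → ℕ)) (I : Finset (Fin n)) (c z x : Fin n → ℕ) :
    rs σ F I c (mix I z x) = rs σ F I c x := by
  unfold rs
  simp only [out_mix]

theorem rs_fin {σ : Bool} {K : ℕ} {F : Set (Fin n → ℕ)} {c x : Fin n → ℕ} (I : Finset (Fin n)) (h : Best σ K F c x) :
    (rs σ F I c x).Finite ∧ (rs σ F I c x).ncard < K := by
  classical
  obtain ⟨-, S, hS, hb⟩ := h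
  obtain ⟨e, he⟩ : ∃ e, e = ∑ i ∈ I, (c i : ℝ) * √(x i : ℝ) := ⟨_, rfl⟩
  have hmm : mix I x x = x := by
    funext i
    unfold mix
    split_ifs <;> rfl
  have hv : ∀ c' : Fin n → ℕ, (∀ i ∈ I, c' i = c i) → val c' x = e + out I c' x := by
    intro c' hc'
    have h1 := val_mix I c' x x
    rw [hmm] at h1
    rw [h1, he]
    congr 1
    exact Finset.sum_congr rfl fun i hi => by rw [hc' i hi]
  have hsub : rs σ F I c x ⊆ ((S.image fun v => v - e : Finset ℝ) : Set ℝ) := by
    rintro v ⟨c', hc'F, hc'I, hv1, hv2⟩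
    have h1 := hb c' hc'F (by
      rw [hv c' hc'I, hv c (fun _ _ => rfl), better_add, hv1]
      exact hv2)
    rw [Finset.mem_coe, mem_image]
    refine ⟨val c' x, h1, ?_⟩
    rw [hv c' hc'I, hv1]
    ring
  have hfin := (Finset.finite_toSet (S.image fun v => v - e)).subset hsub
  refine ⟨hfin, ?_⟩
  have h2 := Set.ncard_le_ncard hsub (Finset.finite_toSet _)
  rw [Set.ncard_coe_finset] at h2
  exact (h2.trans Finset.card_image_le).trans_lt hS

theorem rs_eq {σ : Bool} {F : Set (Fin n → ℕ)} {I : Finset (Fin n)} {c c0 x : Fin n → ℕ} (hc : c ∈ F) (hc0 : c0 ∈ F)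
    (hI : ∀ i ∈ I, c i = c0 i) (h1 : (rs σ F I c x).Finite) (h0 : (rs σ F I c0 x).Finite)
    (h : (rs σ F I c x).ncard = (rs σ F I c0 x).ncard) : out I c x = out I c0 x := by
  have key : ∀ a b : Fin n → ℕ, a ∈ F → (∀ i ∈ I, a i = b i) → (rs σ F I b x).Finite → (rs σ F I a x).Finite →
      Better σ (out I a x) (out I b x) → (rs σ F I a x).ncard < (rs σ F I b x).ncard := by
    intro a b ha hab hb hfa hlt
    refine Set.ncard_lt_ncard ?_ hb
    rw [Set.ssubset_iff_of_subset]
    · exact ⟨out I a x, ⟨a, ha, hab, rfl, hlt⟩, fun ⟨_, _, _, _, h2⟩ => better_irrefl σ _ h2⟩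
    · rintro v ⟨c', hc'F, hc'I, hv1, hv2⟩
      exact ⟨c', hc'F, fun i hi => (hc'I i hi).trans (hab i hi), hv1, better_trans hv2 hlt⟩
  rcases better_tri σ (out I c x) (out I c0 x) with h2 | h2 | h2
  · exact h2
  · have := key c c0 hc hI h0 h1 h2
    omega
  · have := key c0 c hc0 (fun i hi => (hI i hi).symm) h1 h0 h2
    omega

theorem patK {A : Fin n → Finset ℕ} {w : Fin n → ℕ → ℝ} {θ : ℝ} (hθ : 0 ≤ θ)
    (hw0 : ∀ i, ∀ a ∈ A i, 0 ≤ w i a) (hw1 : ∀ i, ∑ a ∈ A i, w i a = 1)
    {L r : ℕ} (hL : ∀ z ∈ Fintype.piFinset A, ∀ i, √(z i : ℝ) ≤ L) {x : Fin n → ℕ}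
    (hx : x ∈ Fintype.piFinset A) (I : Finset (Fin n)) (hwθ : ∀ i ∈ I, ∀ a ∈ A i, w i a ≤ θ) (σ : Bool) (K j : ℕ) (F : Set (Fin n → ℕ)) (ν : Fin n → ℕ) {b : ℕ}
    (hb : 8 * (n * r * L + 1) ≤ 2 ^ b) (V : Finset (Fin n → ℕ)) (hV : V ⊆ Fintype.piFinset A)
    (hν : ∀ i ∈ I, ν i ≠ 0)
    (hbad : ∀ z ∈ V, ∃ (k : ℕ) (c : Fin n → ℕ), Best σ K F c (mix I z x) ∧ (∀ i, c i ≤ r) ∧
      (∀ i ∈ I, c i = ν i) ∧ (rs σ F I c x).ncard = j ∧ (∀ i ∈ I, z i ≠ 0 ∧ sf (z i) ≠ 1) ∧ (∀ i ∈ I, ∀ j ∈ I, sf (z i) = sf (z j) → i = j) ∧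
      |val c (mix I z x) - k| * 2 ^ (1 + b * 4 ^ (I.card + 1)) < 1) :
    ∑ z ∈ V, ∏ i, w i (z i) ≤ (I.card * θ) ^ I.card := by
  classical
  rcases V.eq_empty_or_nonempty with hVe | ⟨z0, hz0⟩
  · rw [hVe, Finset.sum_empty]
    positivity
  obtain ⟨k0, c0, hS0, hc0, hν0, hj0, hn0, hd0, hl0⟩ := hbad z0 hz0
  have hcard : Fintype.card (Option {o // o ∈ I}) = I.card + 1 := by
    rw [Fintype.card_option, Fintype.card_coe]
  have hup : ∀ z ∈ V, mix I z x ∈ Fintype.piFinset A := by
    intro z hz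
    have h1 := Fintype.mem_piFinset.1 (hV hz)
    have h2 := Fintype.mem_piFinset.1 hx
    rw [Fintype.mem_piFinset]
    intro i
    unfold mix
    split_ifs
    · exact h1 i
    · exact h2 i
  have key : ∀ z ∈ V, ∀ i ∈ I, ∃ p ∈ I, ν i ^ 2 * z i = ν p ^ 2 * z0 p := by
    intro z hz i hiI
    obtain ⟨k, c, hS, hc, hν1, hj1, hn1, hd1, hl⟩ := hbad z hz
    have e1 := val_mix I c z x
    have e2 := val_mix I c0 z0 x
    have hsumν : ∀ (d : Fin n → ℕ) (y : Fin n → ℕ), (∀ i ∈ I, d i = ν i) →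
        ∑ i ∈ I, (d i : ℝ) * √(y i : ℝ) = ∑ i ∈ I, (ν i : ℝ) * √(y i : ℝ) := fun d y hd =>
      Finset.sum_congr rfl fun i hi => by rw [hd i hi]
    rw [hsumν c z hν1] at e1
    rw [hsumν c0 z0 hν0] at e2
    have hR : out I c x = out I c0 x := by
      have f1 := rs_fin I hS
      have f0 := rs_fin I hS0
      rw [rs_mix] at f1 f0
      exact rs_eq hS.1 hS0.1 (fun i hi => (hν1 i hi).trans (hν0 i hi).symm) f1.1 f0.1 (hj1.trans hj0.symm)
    obtain ⟨E, hE⟩ : ∃ E, E = 4 ^ (I.card + 1) := ⟨_, rfl⟩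
    rw [← hE] at hl hl0
    have hpow : (2 : ℝ) ^ (1 + b * E) = 2 * (2 ^ b) ^ E := by rw [pow_add, pow_one, pow_mul]
    have hB1 : (1 : ℝ) ≤ 2 ^ b := one_le_pow₀ (by norm_num)
    have hB0 : (0 : ℝ) < 2 * (2 ^ b) ^ E := by positivity
    have hB2 : (1 : ℝ) ≤ 2 * (2 ^ b) ^ E := by
      have := one_le_pow₀ (n := E) hB1
      linarith
    rw [hpow] at hl hl0
    have hu1 : |val c (mix I z x) - k| < 1 := by
      by_contra hcon
      rw [not_lt] at hcon
      have := mul_le_mul hcon hB2 zero_le_one (abs_nonneg _)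
      linarith
    have hu2 : |val c0 (mix I z0 x) - k0| < 1 := by
      by_contra hcon
      rw [not_lt] at hcon
      have := mul_le_mul hcon hB2 zero_le_one (abs_nonneg _)
      linarith
    have hvb := val_le hc (hL _ (hup z hz))
    have hvb0 := val_le hc0 (hL _ (hup z0 hz0))
    have hkle : (k : ℝ) ≤ n * r * L + 1 := by
      have a2 := abs_lt.1 hu1
      linarith
    have hk0le : (k0 : ℝ) ≤ n * r * L + 1 := by
      have a2 := abs_lt.1 hu2
      linarith
    have hout : ∀ d : Fin n → ℕ, 0 ≤ out I d x := fun d =>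
      Finset.sum_nonneg fun i _ => mul_nonneg (Nat.cast_nonneg _) (Real.sqrt_nonneg _)
    have o1 := hout c
    have o2 := hout c0
    rw [e1] at hl hvb
    rw [e2] at hvb0
    rw [e2, ← hR] at hl0
    obtain ⟨a, ha⟩ : ∃ a : Option {o // o ∈ I} → ℕ, a = fun j => j.elim ((k0 + 1) ^ 2) fun p => ν p.1 ^ 2 * z p.1 :=
      ⟨_, rfl⟩
    obtain ⟨a', ha'⟩ : ∃ a' : Option {o // o ∈ I} → ℕ, a' = fun j => j.elim ((k + 1) ^ 2) fun p => ν p.1 ^ 2 * z0 p.1 :=
      ⟨_, rfl⟩
    have hs1 : ∑ j, √(a j : ℝ) = (∑ i ∈ I, (ν i : ℝ) * √(z i : ℝ)) + (k0 + 1) := by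
      rw [ha]
      exact loc_sumO _ _ _ _
    have hs2 : ∑ j, √(a' j : ℝ) = (∑ i ∈ I, (ν i : ℝ) * √(z0 i : ℝ)) + (k + 1) := by
      rw [ha']
      exact loc_sumO _ _ _ _
    have heq : ∑ j, √(a j : ℝ) = ∑ j, √(a' j : ℝ) := by
      by_contra hne
      have hbR : (8 : ℝ) * (n * r * L + 1) ≤ 2 ^ b := by exact_mod_cast hb
      have hsum : ∑ j, √(a j : ℝ) + ∑ j, √(a' j : ℝ) ≤ 2 ^ b := by
        rw [hs1, hs2]
        have b1 : (0 : ℝ) ≤ n * r * L := by positivity
        linarith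
      have h2 := cls_sep hne hB1 hsum
      have h3 : ∑ j, √(a j : ℝ) - ∑ j, √(a' j : ℝ) =
          ((∑ i ∈ I, (ν i : ℝ) * √(z i : ℝ)) + out I c x - k) -
          ((∑ i ∈ I, (ν i : ℝ) * √(z0 i : ℝ)) + out I c x - k0) := by
        rw [hs1, hs2]
        ring
      rw [h3] at h2
      obtain ⟨u, hu⟩ : ∃ u, u = (∑ i ∈ I, (ν i : ℝ) * √(z i : ℝ)) + out I c x - k := ⟨_, rfl⟩
      obtain ⟨u0, hu0⟩ : ∃ u0, u0 = (∑ i ∈ I, (ν i : ℝ) * √(z0 i : ℝ)) + out I c x - k0 := ⟨_, rfl⟩
      rw [← hu, ← hu0] at h2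
      rw [← hu] at hl
      rw [← hu0] at hl0
      have h4 : |u - u0| ≤ |u| + |u0| := abs_sub _ _
      have h5 : |u - u0| * (2 * (2 ^ b) ^ E) < 2 := by
        have := mul_le_mul_of_nonneg_right h4 hB0.le
        linarith
      have h6 : ((2 : ℝ) ^ b) ^ (2 ^ (2 * Fintype.card (Option {o // o ∈ I})) - 1) ≤ (2 ^ b) ^ E := by
        refine pow_le_pow_right₀ hB1 ((Nat.sub_le _ _).trans ?_)
        rw [pow_mul, hE, hcard]
        norm_num
      have h7 := mul_le_mul_of_nonneg_left h6 (abs_nonneg (u - u0))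
      linarith
    have hcla : ∀ j j', sf (a j) = sf (a j') → j = j' := by
      intro j j' hjj
      rw [ha] at hjj
      cases j with
      | none => cases j' with
        | none => rfl
        | some p' =>
          exfalso
          simp only [Option.elim_none, Option.elim_some] at hjj
          rw [sf_sq, sf_cv (hν p'.1 p'.2) (hn1 p'.1 p'.2).1] at hjj
          exact (hn1 p'.1 p'.2).2 hjj.symm
      | some p => cases j' with
        | none =>
          exfalso
          simp only [Option.elim_none, Option.elim_some] at hjj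
          rw [sf_sq, sf_cv (hν p.1 p.2) (hn1 p.1 p.2).1] at hjj
          exact (hn1 p.1 p.2).2 hjj
        | some p' =>
          simp only [Option.elim_some] at hjj
          rw [sf_cv (hν p'.1 p'.2) (hn1 p'.1 p'.2).1, sf_cv (hν p.1 p.2) (hn1 p.1 p.2).1] at hjj
          rw [Subtype.ext (hd1 p.1 p.2 p'.1 p'.2 hjj)]
    have hcla' : ∀ j j', sf (a' j) = sf (a' j') → j = j' := by
      intro j j' hjj
      rw [ha'] at hjj
      cases j with
      | none => cases j' with
        | none => rfl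
        | some p' =>
          exfalso
          simp only [Option.elim_none, Option.elim_some] at hjj
          rw [sf_sq, sf_cv (hν p'.1 p'.2) (hn0 p'.1 p'.2).1] at hjj
          exact (hn0 p'.1 p'.2).2 hjj.symm
      | some p => cases j' with
        | none =>
          exfalso
          simp only [Option.elim_none, Option.elim_some] at hjj
          rw [sf_sq, sf_cv (hν p.1 p.2) (hn0 p.1 p.2).1] at hjj
          exact (hn0 p.1 p.2).2 hjj
        | some p' =>
          simp only [Option.elim_some] at hjj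
          rw [sf_cv (hν p'.1 p'.2) (hn0 p'.1 p'.2).1, sf_cv (hν p.1 p.2) (hn0 p.1 p.2).1] at hjj
          rw [Subtype.ext (hd0 p.1 p.2 p'.1 p'.2 hjj)]
    have hai : a (some ⟨i, hiI⟩) = ν i ^ 2 * z i := by rw [ha]; rfl
    have hνi := hν i hiI
    have hzi := hn1 i hiI
    have hpos : 1 ≤ a (some ⟨i, hiI⟩) := by
      rw [hai]
      have := hzi.1
      exact Nat.one_le_iff_ne_zero.2 (by positivity)
    obtain ⟨j, hj⟩ := cls_match heq hcla hcla' (some ⟨i, hiI⟩) hpos
    rw [hai] at hj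
    cases j with
    | none =>
      exfalso
      rw [ha'] at hj
      simp only [Option.elim_none] at hj
      have h9 := sf_cv hνi hzi.1
      rw [hj, sf_sq] at h9
      exact hzi.2 h9.symm
    | some p =>
      rw [ha'] at hj
      exact ⟨p.1, p.2, hj⟩
  obtain ⟨A', hA'⟩ : ∃ A' : Fin n → Finset ℕ, A' = fun i => (A i).filter fun v =>
    ∃ p ∈ I, ν i ^ 2 * v = ν p ^ 2 * z0 p := ⟨_, rfl⟩
  have hAc : ∀ i ∈ I, ∑ v ∈ A' i, w i v ≤ I.card * θ := by
    intro i hi
    have hsub : A' i ⊆ I.image fun p => ν p ^ 2 * z0 p / ν i ^ 2 := by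
      intro v hv
      rw [hA'] at hv
      obtain ⟨_, p, hp, hpv⟩ := mem_filter.1 hv
      rw [mem_image]
      refine ⟨p, hp, ?_⟩
      rw [← hpv]
      have := hν i hi
      exact Nat.mul_div_cancel_left v (by positivity)
    have c1 : (A' i).card ≤ I.card := (Finset.card_le_card hsub).trans Finset.card_image_le
    have c2 : ∑ v ∈ A' i, w i v ≤ (A' i).card • θ := Finset.sum_le_card_nsmul _ _ _ fun v hv => by
      rw [hA'] at hv
      exact hwθ i hi v (mem_filter.1 hv).1
    rw [nsmul_eq_mul] at c2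
    exact c2.trans (mul_le_mul_of_nonneg_right (by exact_mod_cast c1) hθ)
  have hVsub : V ⊆ Fintype.piFinset fun i => if i ∈ I then A' i else A i := by
    intro z hz
    rw [Fintype.mem_piFinset]
    intro i
    have hzi := Fintype.mem_piFinset.1 (hV hz) i
    split_ifs with hi
    · rw [hA']
      exact mem_filter.2 ⟨hzi, key z hz i hi⟩
    · exact hzi
  have hsubA : ∀ i, (if i ∈ I then A' i else A i) ⊆ A i := by
    intro i
    split_ifs
    · rw [hA']
      exact Finset.filter_subset _ _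
    · exact fun _ h => h
  calc ∑ z ∈ V, ∏ i, w i (z i) ≤ ∑ z ∈ Fintype.piFinset fun i => if i ∈ I then A' i else A i, ∏ i, w i (z i) := by
        refine Finset.sum_le_sum_of_subset_of_nonneg hVsub fun z hz _ => Finset.prod_nonneg fun i _ => ?_
        exact hw0 i _ (hsubA i (Fintype.mem_piFinset.1 hz i))
    _ = ∏ i, ∑ v ∈ (if i ∈ I then A' i else A i), w i v := (Finset.prod_univ_sum _ _).symm
    _ ≤ ∏ i, (if i ∈ I then (I.card : ℝ) * θ else 1) := by
        refine Finset.prod_le_prod (fun i _ => Finset.sum_nonneg fun v hv => hw0 i v (hsubA i hv)) fun i _ => ?_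
        by_cases hi : i ∈ I
        · rw [if_pos hi, if_pos hi]
          exact hAc i hi
        · rw [if_neg hi, if_neg hi, hw1]
    _ = (I.card * θ) ^ I.card := by
        rw [Finset.prod_ite_mem, Finset.univ_inter, Finset.prod_const]

end Pool.Agent.H84.KB
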